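import Mathlib

/- Definitions and statements of the pieces for MP_1672e2_an (S03912). -/

set_option autoImplicit false
open MeasureTheory Filter
open scoped Manifold

namespace Pool.Agent.H953Z

/- ## Entropy and Markov shifts -/

/-- block entropy of the observable `p` over `n` steps -/
noncomputable def Hn {X A : Type} [MeasurableSpace X] [Fintype A] (μ : Measure X) (T : X → X)
    (p : X → A) (n : ℕ) : ℝ :=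
  ∑ w : Fin n → A, Real.negMulLog (μ {z | ∀ i : Fin n, p (T^[(i : ℕ)] z) = w i}).toReal

def shift {α : Type} (x : ℤ → α) : ℤ → α := fun n => x (n + 1)

/-- all fibres measurable -/
def MeasF {X A : Type} [MeasurableSpace X] (p : X → A) : Prop := ∀ a, MeasurableSet (p ⁻¹' {a})

/-- positive entropy, literally as in the frozen statement -/
def PosEnt {X : Type} [MeasurableSpace X] (T : X → X) (μ : Measure X) : Prop :=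
  ∃ k : ℕ, ∃ P : Fin k → Set X, (∀ i, MeasurableSet (P i)) ∧
    (∀ i j, i ≠ j → Disjoint (P i) (P j)) ∧ (⋃ i, P i) = Set.univ ∧
    ∃ c : ℝ, 0 < c ∧ ∀ n : ℕ, 0 < n →
      c * (n : ℝ) ≤ ∑ w : Fin n → Fin k,
        Real.negMulLog (μ (⋂ i : Fin n, T^[(i : ℕ)] ⁻¹' P (w i))).toReal

def PathSet (E : Set (ℕ × ℕ)) : Set (ℤ → ℕ) := {x : ℤ → ℕ | ∀ n : ℤ, (x n, x (n + 1)) ∈ E}

/-- the conclusion of the frozen statement for a measurable map `T` -/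
def IsMarkov {X : Type} [MeasurableSpace X] (T : X → X) : Prop :=
  ∃ (E : Set (ℕ × ℕ)) (M' : Set X) (X' : Set (ℤ → ℕ)),
    MeasurableSet M' ∧ MeasurableSet X' ∧ T ⁻¹' M' = M' ∧ shift ⁻¹' X' = X' ∧ X' ⊆ PathSet E ∧
    (∃ ψ : MeasurableEquiv (↥M') (↥X'),
      ∀ a b : ↥M', (b : X) = T (a : X) → ((ψ b : ↥X') : ℤ → ℕ) = shift ((ψ a : ↥X') : ℤ → ℕ)) ∧
    (∀ μ : Measure X, IsProbabilityMeasure μ → Ergodic T μ → PosEnt T μ → μ M'ᶜ = 0) ∧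
    (∀ ν : Measure (ℤ → ℕ), IsProbabilityMeasure ν → Ergodic shift ν → ν (PathSet E) = 1 →
      PosEnt shift ν → ν (PathSet E \ X') = 0)

/-- entropy of `ν` is at most `h` -/
def EntLe {X : Type} [MeasurableSpace X] (T : X → X) (ν : Measure X) (h : ℝ) : Prop :=
  ∀ (k : ℕ) (p : X → Fin k), MeasF p → ∀ ε : ℝ, 0 < ε →
    ∀ᶠ n : ℕ in atTop, Hn ν T p n ≤ (n : ℝ) * (h + ε)

/-- `μ` has cyclic factors of unbounded order -/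
def Phases {X : Type} [MeasurableSpace X] (T : X → X) (μ : Measure X) : Prop :=
  ∀ N : ℕ, ∃ Q : ℕ, N ≤ Q ∧ ∃ g : X → ZMod Q, MeasF g ∧ ∀ᵐ z ∂μ, g (T z) = g z + 1

def LoopBound (E : Set (ℕ × ℕ)) (h : ℝ) : Prop :=
  ∀ (v n : ℕ) (S : Finset (Fin (n + 1) → ℕ)),
    (∀ w ∈ S, w 0 = v ∧ w (Fin.last n) = v ∧ ∀ i : Fin n, (w i.castSucc, w i.succ) ∈ E) →
    (S.card : ℝ) ≤ Real.exp (h * n)

def S_gibbs : Prop :=
  ∀ (X W : Type) [MeasurableSpace X] [Fintype W] (ν : Measure X) [IsProbabilityMeasure ν]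
    (Y : X → W) (Q : W → ℝ) (l : X → ℝ), MeasF Y → (∀ w, 0 ≤ Q w) → ∑ w, Q w ≤ 1 →
    Integrable l ν → (∀ᵐ z ∂ν, Real.exp (-l z) ≤ Q (Y z)) →
    ∑ w, Real.negMulLog (ν (Y ⁻¹' {w})).toReal ≤ ∫ z, l z ∂ν

def S_erg : Prop :=
  ∀ (Ω C : Type) [MeasurableSpace Ω] [MeasurableSpace C] (m : Measure Ω) [IsProbabilityMeasure m]
    (κ : Measure C) [IsProbabilityMeasure κ] (S : Ω → Ω), Ergodic S m →
    Ergodic (fun p : Ω × (ℤ → C) => (S p.1, shift p.2))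
      (m.prod (Measure.infinitePi fun _ : ℤ => κ))

def S_loop : Prop :=
  ∀ (E : Set (ℕ × ℕ)) (h : ℝ), 0 < h →
    (∀ ν : Measure (ℤ → ℕ), IsProbabilityMeasure ν → Ergodic shift ν → ν (PathSet E) = 1 →
      PosEnt shift ν → EntLe shift ν h) → LoopBound E h

def S_code : Prop :=
  ∀ (E : Set (ℕ × ℕ)) (h : ℝ), 0 < h → LoopBound E h →
    ∀ μ : Measure (ℤ → ℕ), IsProbabilityMeasure μ → Ergodic shift μ → μ (PathSet E) = 1 →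
      Phases shift μ → ∀ (k : ℕ) (q : (ℤ → ℕ) → Fin k), MeasF q →
      ∃ n : ℕ, Hn μ shift q n < (n : ℝ) * h

def S_markov : Prop :=
  ∀ (X : Type) [MeasurableSpace X] (T : X → X), Measurable T → ∀ z0 : X, T z0 = z0 →
    ∀ h : ℝ, 0 < h →
    (∀ ν : Measure X, IsProbabilityMeasure ν → MeasurePreserving T ν ν → EntLe T ν h) →
    ∀ μ : Measure X, IsProbabilityMeasure μ → Ergodic T μ → Phases T μ →
    ∀ (A : Type) [Fintype A] (q : X → A), MeasF q → (∀ n : ℕ, (n : ℝ) * h ≤ Hn μ T q n) →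
    ¬ IsMarkov T

/- ## Coding -/

/-- words of length `n` read at positions `0..n-1` -/
def lang {A : Type} (S : Set (ℤ → A)) (n : ℕ) : Set (Fin n → A) :=
  {w | ∃ σ ∈ S, ∀ i : Fin n, σ ((i : ℕ) : ℤ) = w i}

def CountLe {A : Type} (S : Set (ℤ → A)) (h : ℝ) : Prop :=
  ∀ ε : ℝ, 0 < ε → ∃ C : ℝ, ∀ n : ℕ, ((lang S n).ncard : ℝ) ≤ C * Real.exp ((h + ε) * n)

/-- `nm` codes `T` on `L` -/
structure Coded {X A : Type} [MeasurableSpace X] [MeasurableSpace A] (T : X → X)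
    (nm : X → ℤ → A) (L : Set X) : Prop where
  measT : Measurable T
  meas : Measurable nm
  equiv : ∀ z, nm (T z) = shift (nm z)
  measL : MeasurableSet L
  inv : T ⁻¹' L = L
  inj : Set.InjOn nm L

def S_upper : Prop :=
  ∀ (X A : Type) [MeasurableSpace X] [StandardBorelSpace X] [Fintype A] [MeasurableSpace A]
    [DiscreteMeasurableSpace A] (T : X → X) (nm : X → ℤ → A) (L : Set X), Coded T nm L →
    ∀ h : ℝ, 0 ≤ h → CountLe (nm '' L) h →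
    ∀ ν : Measure X, IsProbabilityMeasure ν → MeasurePreserving T ν ν →
      (∀ᵐ z ∂ν, z ∈ L ∨ T z = z) → EntLe T ν h

def S_lower : Prop :=
  ∀ (X A : Type) [MeasurableSpace X] [StandardBorelSpace X] [Fintype A] [MeasurableSpace A]
    [DiscreteMeasurableSpace A] (T : X → X) (nm : X → ℤ → A) (L : Set X), Coded T nm L →
    ∀ μ : Measure (ℤ → A), IsProbabilityMeasure μ → Ergodic shift μ → (∀ᵐ σ ∂μ, σ ∈ nm '' L) →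
    ∃ μ' : Measure X, IsProbabilityMeasure μ' ∧ Ergodic T μ' ∧ μ'.map nm = μ

/- ## The symbolic system -/

abbrev Al : Type := Option (Bool × Option (Fin 3))
abbrev Ar : Type := Option (Bool × Fin 3)
instance instMeasAl : MeasurableSpace Al := ⊤
instance instMeasAr : MeasurableSpace Ar := ⊤
instance instDiscAl : DiscreteMeasurableSpace Al := ⟨fun _ => trivial⟩
instance instDiscAr : DiscreteMeasurableSpace Ar := ⟨fun _ => trivial⟩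

def red (a : Al) : Ar := a.map fun p => (p.1, p.2.getD 0)
def base (σ : ℤ → Al) : ℤ → Bool := fun t => (σ t).isSome
def flag (σ : ℤ → Al) (t : ℤ) : Prop := ∃ (b : Bool) (c : Fin 3), σ t = some (b, some c)

/-- a one at `τ`, exactly `m` zeros, then a one -/
def Slot (m : ℕ) (y : ℤ → Bool) (τ : ℤ) : Prop :=
  y τ = true ∧ (∀ i : ℕ, 1 ≤ i → i ≤ m → y (τ + i) = false) ∧ y (τ + m + 1) = true

def InfOnes (x : ℤ → Bool) : Prop := ∀ t : ℤ, (∃ u, t < u ∧ x u = true) ∧ ∃ u, u < t ∧ x u = true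

structure Par where
  y : ℕ → ℤ → Bool
  n : ℕ → ℕ
  m : ℕ → ℕ
  N : ℕ → ℕ
  n_pos : ∀ j, 0 < n j
  per : ∀ j t, y j (t + n j) = y j t
  y_zero : ∀ j, y j 0 = true
  m_zero : m 0 = 0
  m_mono : StrictMono m
  m_ge : ∀ j, 12 * 2 ^ j ≤ m (j + 1)
  N_pos : ∀ j, 0 < N j
  grow : ∀ j, N j * n (j + 1) ≤ N (j + 1)
  slot : ∀ j, ∃ τ, Slot (m j) (y (j + 1)) τ

/-- around time `t` the word `x` follows the periodic word `y (j+1)` around one of its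
level `j` slots -/
def TM (P : Par) (j : ℕ) (x : ℤ → Bool) (t : ℤ) : Prop :=
  ∃ τ : ℤ, Slot (P.m j) (P.y (j + 1)) τ ∧ ∀ u : ℤ, -((P.N j * P.n (j + 1) : ℕ) : ℤ) ≤ u →
    u ≤ ((P.N j * P.n (j + 1) + P.m j + 1 : ℕ) : ℤ) → x (t + u) = P.y (j + 1) (τ + u)

def Adm (P : Par) : Set (ℤ → Al) :=
  {σ | InfOnes (base σ) ∧ ∀ t, flag σ t ↔ ∃ j, TM P j (base σ) t}

structure Par2 extends Par where
  M : ℕ → ℕ
  u : ℕ → ℕ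
  n_zero : n 0 = 1
  y_init : ∀ t, y 0 t = true
  m_succ : ∀ j, m (j + 1) + 1 = u j * n j
  n_succ : ∀ j, n (j + 1) = (M j + u j) * n j
  y_succ : ∀ j t, y (j + 1) t =
    if t % (n (j + 1) : ℤ) < ((M j * n j : ℕ) : ℤ) then y j (t % (n (j + 1) : ℤ))
    else decide (t % (n (j + 1) : ℤ) = ((M j * n j : ℕ) : ℤ))
  small : ∀ i, 2 ^ (i + 1) * (2 * (N i * n (i + 1) + m i + 1) + u (i + 1) * n (i + 1)) ≤ n (i + 2)

open Classical in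
noncomputable def pot (P : Par) (k : ℕ) (x : ℤ → Bool) (t : ℤ) : ℝ :=
  (if x t = true then Real.log 2 else 0) + (if ∃ j < k, TM P j x t then Real.log 3 else 0)

noncomputable def ek (P : Par) (k : ℕ) : ℝ :=
  (∑ t ∈ Finset.range (P.n (k + 1)), pot P (k + 1) (P.y (k + 1)) (t : ℤ)) / (P.n (k + 1) : ℝ)

def S_stage : Prop :=
  ∃ (P : Par2) (h : ℝ), 0 < h ∧ CountLe ((fun σ : ℤ → Al => fun t => red (σ t)) '' Adm P.toPar) h ∧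
    ∀ ε : ℝ, 0 < ε → ∀ᶠ k : ℕ in atTop, h - ε ≤ ek P.toPar k

def S_meas : Prop :=
  ∀ (P : Par2) (h : ℝ), (∀ ε : ℝ, 0 < ε → ∀ᶠ k : ℕ in atTop, h - ε ≤ ek P.toPar k) →
    ∃ μ : Measure (ℤ → Al), IsProbabilityMeasure μ ∧ Ergodic shift μ ∧
      (∀ᵐ σ ∂μ, σ ∈ Adm P.toPar) ∧ Phases shift μ ∧
      ∀ n : ℕ, (n : ℝ) * h ≤ Hn μ shift (fun σ => σ 0) n

/- ## Plane and sphere -/

/-- a `C^1` diffeomorphism of the plane -/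
def IsD (F : ℝ × ℝ → ℝ × ℝ) : Prop :=
  ContDiff ℝ 1 F ∧ Function.Bijective F ∧ ∀ z, Function.Injective (fderiv ℝ F z)

def CptS (F : ℝ × ℝ → ℝ × ℝ) : Prop := ∃ R : ℝ, ∀ z, R ≤ ‖z‖ → F z = z

def S_geo : Prop :=
  ∀ P : Par, ∃ (F : ℝ × ℝ → ℝ × ℝ) (nm : ℝ × ℝ → ℤ → Al) (L : Set (ℝ × ℝ)),
    IsD F ∧ CptS F ∧ Coded F nm L ∧ nm '' L = Adm P ∧
    ∀ ν : Measure (ℝ × ℝ), IsFiniteMeasure ν → MeasurePreserving F ν ν →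
      ∀ᵐ z ∂ν, z ∈ L ∨ F z = z

abbrev Sph : Type := ↥(Metric.sphere (0 : EuclideanSpace ℝ (Fin (2 + 1))) 1)

def S_sphere : Prop :=
  ∀ F : ℝ × ℝ → ℝ × ℝ, IsD F → CptS F →
    ∃ (f : Diffeomorph (𝓡 2) (𝓡 2) Sph Sph 1) (e : ℝ × ℝ → Sph), MeasurableEmbedding e ∧
      (∀ z, f (e z) = e (F z)) ∧ ∀ p, p ∉ Set.range e → f p = p

/-- the target: the negation of the frozen statement, folded -/
def S_target : Prop :=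
  ¬ (∀ (M : Type) [TopologicalSpace M] [ChartedSpace (EuclideanSpace ℝ (Fin 2)) M]
      [IsManifold (𝓡 2) 1 M] [CompactSpace M] [T2Space M]
      [MeasurableSpace M] [BorelSpace M]
      (f : Diffeomorph (𝓡 2) (𝓡 2) M M 1), IsMarkov (f : M → M))

def dir (p : Fin 4) : ℝ × ℝ := if p = 0 ∨ p = 2 then (0, 1) else (1, 0)

def S_tri : Prop :=
  (∀ F G, IsD F → IsD G → IsD (F ∘ G)) ∧
  (∀ F, IsD F → ∃ G, IsD G ∧ Function.LeftInverse G F ∧ Function.RightInverse G F) ∧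
  (∀ (p : Fin 4) (u : ℝ × ℝ → ℝ), ContDiff ℝ 1 u → (∃ K : ℝ, ∀ z, |u z| ≤ K) →
    (∀ z, -1 < fderiv ℝ u z (dir p)) → IsD fun z => z + u z • dir p)

/- ## The model zigzag -/

noncomputable def stp (g : Fin 4 → ℝ × ℝ → ℝ) (L : ℕ) (p : Fin 4) (z : ℝ × ℝ) : ℝ × ℝ :=
  z + (g p z / L) • dir p

noncomputable def zig (g : Fin 4 → ℝ × ℝ → ℝ) (L : ℕ) (z : ℝ × ℝ) : ℝ × ℝ :=
  (stp g L 3)^[L] ((stp g L 2)^[L] ((stp g L 1)^[L] ((stp g L 0)^[L] z)))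

structure Model (g : Fin 4 → ℝ × ℝ → ℝ) (C : ℝ) : Prop where
  smooth : ∀ p, ContDiff ℝ 1 (g p)
  bound : ∀ p z, ‖fderiv ℝ (g p) z‖ ≤ C
  supp : ∀ p z, 139 ≤ ‖z‖ → g p z = 0
  half : ∀ p z, |fderiv ℝ (g p) z (dir p)| ≤ 1 / 2
  cross : ∀ L, 1 ≤ L → ∀ z : ℝ × ℝ, |z.2| ≤ 1 → |(zig g L z).1| ≤ 1 →
    |z.1 + 18| ≤ 1 ∨ |z.1| ≤ 1 ∨ |z.1 - 18| ≤ 1
  left : ∀ L, 1 ≤ L → ∀ z : ℝ × ℝ, |z.1 + 18| ≤ 1 → |z.2| ≤ 1 → zig g L z = (z.1 + 18, z.2 - 18)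
  mid : ∀ L, 1 ≤ L → ∀ z : ℝ × ℝ, |z.1| ≤ 1 → |z.2| ≤ 1 → zig g L z = (-z.1, -z.2)
  right : ∀ L, 1 ≤ L → ∀ z : ℝ × ℝ, |z.1 - 18| ≤ 1 → |z.2| ≤ 1 → zig g L z = (z.1 - 18, z.2 + 18)

def S_model : Prop := ∃ (g : Fin 4 → ℝ × ℝ → ℝ) (C : ℝ), Model g C

/- ## Normalised geometry -/

noncomputable def eps : ℝ := 1 / 100000
noncomputable def lam : ℝ := 1 / 1000000000
noncomputable def ax (d : ℕ) (ξ : ℝ) : ℝ := 1 / ((d : ℝ) + 1) + eps / ((d : ℝ) + 1) ^ 2 * ξ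
noncomputable def ay (d : ℕ) (η : ℝ) : ℝ := if d = 0 then 9 + 18 * η else ax d η - 18
noncomputable def lamd (d : ℕ) : ℝ := lam / ((d : ℝ) + 1) ^ 2
def sg (b : Bool) : ℝ := if b then 1 else -1
noncomputable def beta (d : ℕ) (b : Bool) (ξ : ℝ) : ℝ := sg b * (1 / 2 + lam / eps * ax d ξ)
def off (c : Fin 3) : ℝ := (((c : ℕ) : ℝ) - 1) * 18
def fl (c : Fin 3) : ℝ := if c = 1 then -1 else 1

def Form (e : ℝ × ℝ) (r : ℝ) (c : Fin 3) (xi yi xo yo : ℝ) : Prop :=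
  xi = e.1 + fl c * (xo - e.1) + off c * r ∧ yo = e.2 + fl c * (yi - e.2) + off c * r
def Near (e : ℝ × ℝ) (r x y : ℝ) : Prop := |x - e.1| ≤ 140 * r ∧ |y - e.2| ≤ 140 * r
def InV (e : ℝ × ℝ) (r : ℝ) (c : Fin 3) (x y : ℝ) : Prop :=
  |x - e.1 - off c * r| ≤ r ∧ |y - e.2| ≤ r
def InH (e : ℝ × ℝ) (r : ℝ) (c : Fin 3) (x y : ℝ) : Prop :=
  |x - e.1| ≤ r ∧ |y - e.2 - off c * r| ≤ r

def Rel (C : Finset (ℝ × ℝ)) (r xi yi xo yo : ℝ) : Prop :=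
  ((∀ e ∈ C, ¬ Near e r xi yi) ∧ xo = xi ∧ yo = yi) ∨
  ∃ e ∈ C, Near e r xi yi ∧ Near e r xo yo ∧
    (|yi - e.2| ≤ r → |xo - e.1| ≤ r → ∃ c, Form e r c xi yi xo yo) ∧
    (∀ c, InV e r c xi yi → Form e r c xi yi xo yo) ∧
    (∀ c, InH e r c xo yo → Form e r c xi yi xo yo)

structure Pat where
  m : ℕ → ℕ
  A : ℕ → ℕ
  rho : ℕ → ℝ
  Mt : ℕ → (ℤ → ℕ) → ℤ → Prop
  m_inj : Function.Injective m
  A_pos : ∀ j, 0 < A j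
  rho_pos : ∀ j, 0 < rho j
  rho_le : ∀ j, rho j ≤ lam
  rho_anti : Antitone rho
  rho_lim : Tendsto rho atTop (nhds 0)
  at_mid : ∀ j d n, Mt j d n → d n = m j
  at_fut : ∀ j d n, Mt j d n → d (n + A j) = m j
  at_past : ∀ j d n, Mt j d n → d (n - A j) = m j
  fut : ∀ j d n, Mt j d n → ∏ i ∈ Finset.range (A j), lamd (d (n + i + 1)) = rho j
  past : ∀ j d n, Mt j d n → ∏ i ∈ Finset.range (A j), lamd (d (n - i - 1)) = rho j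
  loc : ∀ j d d' n n', Mt j d' n' → (∀ i : ℤ, |i| ≤ A j → d (n + i) = d' (n' + i)) → Mt j d n

def gaps (T : ℤ → ℤ) (n : ℤ) : ℕ := (T (n + 1) - T n - 1).toNat

def S_enum : Prop :=
  (∀ x : ℤ → Bool, InfOnes x → ∃ T : ℤ → ℤ, StrictMono T ∧ ∀ t, x t = true ↔ ∃ n, T n = t) ∧
  ∀ P : Par, ∃ Q : Pat, Q.m = P.m ∧ ∀ (x : ℤ → Bool) (T : ℤ → ℤ), StrictMono T →
    (∀ t, x t = true ↔ ∃ n, T n = t) → ∀ j n, TM P j x (T n) ↔ Q.Mt j (gaps T) n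

structure Orb where
  d : ℤ → ℕ
  b : ℤ → Bool
  xi : ℤ → ℝ
  yi : ℤ → ℝ
  xo : ℤ → ℝ
  yo : ℤ → ℝ
  hx : ∀ n, xo (n - 1) = beta (d n) (b n) (xi n)
  hy : ∀ n, yi (n + 1) = beta (d n) (b (n + 1)) (yo n)
  bx : ∀ n, |xi n| ≤ 1
  bz : ∀ n, |yo n| ≤ 1

def Exact (m : ℕ → ℕ) (C : ℕ → Finset (ℝ × ℝ)) (r : ℕ → ℝ) (O : Orb) : Prop :=
  ∀ n, (∀ j, O.d n = m j → Rel (C j) (r j) (O.xi n) (O.yi n) (O.xo n) (O.yo n)) ∧
    ((∀ j, O.d n ≠ m j) → O.xo n = O.xi n ∧ O.yo n = O.yi n)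

structure Cells (C : ℕ → Finset (ℝ × ℝ)) (r : ℕ → ℝ) : Prop where
  r_pos : ∀ j, 0 < r j
  r_le : ∀ j, r j ≤ 3 * lam
  core : ∀ j, ∀ e ∈ C j, |e.1| ≤ 3 / 4 ∧ |e.2| ≤ 3 / 4
  sep : ∀ j, ∀ e ∈ C j, ∀ e' ∈ C j, e ≠ e' → 420 * r j < ‖e - e'‖

def Lab (C : ℕ → Finset (ℝ × ℝ)) (r : ℕ → ℝ) (j : ℕ) (c : Fin 3) (x y : ℝ) : Prop :=
  ∃ e ∈ C j, InV e (r j) c x y

structure NormOK (Q : Pat) (C : ℕ → Finset (ℝ × ℝ)) (r : ℕ → ℝ) : Prop where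
  cells : Cells C r
  act1 : ∀ O, Exact Q.m C r O → ∀ j n, Q.Mt j O.d n → ∃ c, Lab C r j c (O.xi n) (O.yi n)
  act2 : ∀ O, Exact Q.m C r O → ∀ j n, O.d n = Q.m j → ¬ Q.Mt j O.d n →
    (∀ e ∈ C j, ¬ Near e (r j) (O.xi n) (O.yi n)) ∧ O.xo n = O.xi n ∧ O.yo n = O.yi n
  inj : ∀ O O', Exact Q.m C r O → Exact Q.m C r O' → O.d = O'.d → O.b = O'.b →
    (∀ j n c, Q.Mt j O.d n → Lab C r j c (O.xi n) (O.yi n) → Lab C r j c (O'.xi n) (O'.yi n)) →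
    O.xi = O'.xi ∧ O.yi = O'.yi
  ex : ∀ (d : ℤ → ℕ) (b : ℤ → Bool) (ch : ℤ → Fin 3), ∃ O : Orb, Exact Q.m C r O ∧ O.d = d ∧
    O.b = b ∧ ∀ j n, Q.Mt j d n → Lab C r j (ch n) (O.xi n) (O.yi n)

def S_norm : Prop := ∀ Q : Pat, ∃ C r, NormOK Q C r

/- ## Base map and perturbation -/

structure BaseOK (B : ℝ × ℝ → ℝ × ℝ) (k0 kap : ℝ → ℝ) : Prop where
  isD : IsD B
  cpt : CptS B
  k0_ax : ∀ d ξ, |ξ| ≤ 1 → k0 (ax d ξ) = ax (d + 1) ξ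
  kap_ay : ∀ d η, |η| ≤ 1 → kap (ay d η) = ax d η
  kap_low : ∀ y, y ≤ -18 + 3 / 4 → kap y = y + 18
  kap_le : ∀ y, y ≤ 140 → kap y ≤ 2
  k0_zero : k0 0 = 0
  k0_lt : ∀ v, v ≠ 0 → |k0 v| < |v|
  k0_le : ∀ v, v ≤ 2 → k0 v ≤ 3 / 4
  br0 : ∀ x y, |x| ≤ 2 → |y| ≤ 140 → B (k0 x, y) = (x, k0 (kap y) - 18)
  br1 : ∀ (b : Bool) x y, |x| ≤ 2 → |y| ≤ 140 →
    B (1 + sg b * (eps / 2 + lam * x), y) = (x, 9 + sg b * (9 + 18 * lam / eps * kap y))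
  cases : ∀ z : ℝ × ℝ, |z.1| ≤ 2 → |z.2| ≤ 140 → |(B z).1| ≤ 2 →
    z.1 = k0 (B z).1 ∨ ∃ b : Bool, z.1 = 1 + sg b * (eps / 2 + lam * (B z).1)
  esc1 : ∀ z : ℝ × ℝ, max |(B z).2| 140 ≤ max |z.2| 140
  esc2 : ∀ z : ℝ × ℝ, 140 < |z.2| → |(B z).2| = |z.2| → B z = z
  esc3 : ∀ z : ℝ × ℝ, |z.2| ≤ 140 → 2 < |z.1| →
    |z.1| ≤ |(B z).1| ∧ (|(B z).1| = |z.1| → B z = z)

def S_base : Prop := ∃ B k0 kap, BaseOK B k0 kap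

def cum (S : ℕ → ℝ × ℝ → ℝ × ℝ) : ℕ → ℝ × ℝ → ℝ × ℝ
  | 0 => id
  | i + 1 => S i ∘ cum S i

def Zone (e i : ℕ) (z : ℝ × ℝ) : Prop :=
  ∃ w : ℝ × ℝ, ‖w‖ ≤ 1 ∧ z = (ax e w.1, ay i w.2)

structure PertOK (m : ℕ → ℕ) (C : ℕ → Finset (ℝ × ℝ)) (r : ℕ → ℝ) (G : ℝ × ℝ → ℝ × ℝ)
    (S : ℕ → ℕ → ℝ × ℝ → ℝ × ℝ) : Prop where
  isD : IsD G
  out : ∀ z, (∀ e i, ¬ Zone e i z) → G z = z
  box : ∀ d i w, ‖w‖ ≤ 1 → ‖S d i w‖ ≤ 1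
  loc : ∀ e i (w : ℝ × ℝ), ‖w‖ ≤ 1 →
    G (ax e w.1, ay i w.2) = (ax e (S (e + i) i w).1, ay i (S (e + i) i w).2)
  rel : ∀ j (w : ℝ × ℝ), Rel (C j) (r j) w.1 w.2
    (cum (S (m j)) (m j + 1) w).1 (cum (S (m j)) (m j + 1) w).2
  triv : ∀ d, (∀ j, d ≠ m j) → ∀ i w, S d i w = w

def S_pert : Prop :=
  ∀ (m : ℕ → ℕ) (C : ℕ → Finset (ℝ × ℝ)) (r : ℕ → ℝ), m 0 = 0 → StrictMono m →
    (∀ j, 12 * 2 ^ j ≤ m (j + 1)) → Cells C r → ∃ G S, PertOK m C r G S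

end Pool.Agent.H953Z
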